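import Pool.Agent.H23.FF.TreeA

/-! Cases (generated). -/

set_option linter.all false

namespace Pool.Agent.H23.FF

open Pool.Agent.H98.Flat (Ap InA)
open Pool.Agent.H98.Flat.Ap
open Pool.Agent.H81.AP

theorem caseA0 {A : Ap} (F : A.Fl) (hr : (A.p : ℤ) < 2 * A.w + A.h) {i m s f1 f2 g1 : ℤ}
    (d1 : A.Cls i m f1 s) (d2 : A.Cls (A.p - i) (A.md - m + (-1)) g1 (-s))
    (d3 : A.Cls (2 * i) (2 * m + 0) f2 (2 * s)) (e1 : g1 = A.fd - f1 - (-1) * A.q)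
    (e2 : f2 = 2 * f1 - 0 * A.q) (r1 : 0 ≤ m) (r2 : 0 ≤ A.md - (2 * m + 0) + (-1))
    (r3 : A.fd < f2) (s0 : 0 < s) (s1 : s < A.p) (y1 : 2 * s ≠ A.p) (y2 : 3 * s ≠ A.p)
    (y3 : 3 * s ≠ 2 * A.p) (i1 : i ≠ A.p - i) (i2 : i ≠ 2 * i) (i3 : A.p - i ≠ 2 * i) : False := by
  have hw : (2 : ℤ) ≤ A.w := by exact_mod_cast A.hw
  have hwh : (A.w : ℤ) ≤ A.h := by exact_mod_cast A.hwh
  have hh2 : 2 * (A.h : ℤ) < A.p := by exact_mod_cast A.h2
  have hmd := A.hmd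
  have hmd2 := A.hmd2
  have v1 := A.hfd
  have v2 := A.hfd2
  have u1 := d1.2.2.1
  have u2 := d1.2.2.2.1
  have u3 := d2.2.2.1
  have u4 := d2.2.2.2.1
  have u5 := d3.2.2.1
  have u6 := d3.2.2.2.1
  have x01 := d1.f_ne_fd.symm
  have x02 := d2.f_ne d1 i1.symm
  have x03 := d3.f_ne d1 i2.symm
  have x12 := d2.f_ne_fd
  have x13 := d3.f_ne_fd
  have x23 := d3.f_ne d2 i3.symm
  have nd : [i, (A.p : ℤ) - i, 2 * i].Nodup := by
    simp only [List.nodup_cons, List.mem_cons, List.not_mem_nil, or_false, not_false_eq_true,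
      List.nodup_nil, and_true, not_or]
    exact ⟨⟨i1, i2⟩, i3⟩
  refine run F (v := [(A.p : ℤ), A.w, A.h, A.md, m, s, f1, A.fd, A.q]) ⟨_, rfl⟩
    (fd := [0, 0, 0, 0, 0, 0, 0, 0, 1]) (by simp only [dot]; ring) (cls := cA0) ?_ nd
    (N := nA0) ?_ (G := gA0) ?_ kA0
  · simp only [cA0, ClsOk, dot]
    refine ⟨?_, ?_, ?_, trivial⟩
    · convert d1 using 1 <;> ring1
    · convert d2 using 1 <;> first | ring1 | (rw [e1]; ring1)
    · convert d3 using 1 <;> first | ring1 | (rw [e2]; ring1)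
  · clear d1 d2 d3 nd
    simp only [nA0, AllNe, dot]
    exact ⟨fun h => y1 (by omega), fun h => y2 (by omega), fun h => y3 (by omega), fun h => x01 (by omega), fun h => x02 (by omega), fun h => x03 (by omega), fun h => x12 (by omega), fun h => x13 (by omega), fun h => x23 (by omega), trivial⟩
  · clear d1 d2 d3 nd y1 y2 y3 x01 x02 x03 x12 x13 x23
    simp only [gA0, AllNn, dot]
    refine ⟨?_, ?_, ?_, ?_, ?_, ?_, ?_, ?_, ?_, ?_, ?_, ?_, ?_, ?_, ?_, ?_, ?_, ?_, ?_, trivial⟩ <;> omega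

theorem caseA1 {A : Ap} (F : A.Fl) (hr : (A.p : ℤ) < 2 * A.w + A.h) {i m s f1 f2 g1 : ℤ}
    (d1 : A.Cls i m f1 s) (d2 : A.Cls (A.p - i) (A.md - m + 0) g1 (-s))
    (d3 : A.Cls (2 * i) (2 * m + 0) f2 (2 * s)) (e1 : g1 = A.fd - f1 - 0 * A.q)
    (e2 : f2 = 2 * f1 - 0 * A.q) (r1 : 0 ≤ m) (r2 : 0 ≤ A.md - (2 * m + 0) + (-1))
    (r3 : A.fd < f2) (s0 : 0 < s) (s1 : s < A.p) (y1 : 2 * s ≠ A.p) (y2 : 3 * s ≠ A.p)
    (y3 : 3 * s ≠ 2 * A.p) (i1 : i ≠ A.p - i) (i2 : i ≠ 2 * i) (i3 : A.p - i ≠ 2 * i) : False := by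
  have hw : (2 : ℤ) ≤ A.w := by exact_mod_cast A.hw
  have hwh : (A.w : ℤ) ≤ A.h := by exact_mod_cast A.hwh
  have hh2 : 2 * (A.h : ℤ) < A.p := by exact_mod_cast A.h2
  have hmd := A.hmd
  have hmd2 := A.hmd2
  have v1 := A.hfd
  have v2 := A.hfd2
  have u1 := d1.2.2.1
  have u2 := d1.2.2.2.1
  have u3 := d2.2.2.1
  have u4 := d2.2.2.2.1
  have u5 := d3.2.2.1
  have u6 := d3.2.2.2.1
  have x01 := d1.f_ne_fd.symm
  have x02 := d2.f_ne d1 i1.symm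
  have x03 := d3.f_ne d1 i2.symm
  have x12 := d2.f_ne_fd
  have x13 := d3.f_ne_fd
  have x23 := d3.f_ne d2 i3.symm
  have nd : [i, (A.p : ℤ) - i, 2 * i].Nodup := by
    simp only [List.nodup_cons, List.mem_cons, List.not_mem_nil, or_false, not_false_eq_true,
      List.nodup_nil, and_true, not_or]
    exact ⟨⟨i1, i2⟩, i3⟩
  refine run F (v := [(A.p : ℤ), A.w, A.h, A.md, m, s, f1, A.fd, A.q]) ⟨_, rfl⟩
    (fd := [0, 0, 0, 0, 0, 0, 0, 0, 1]) (by simp only [dot]; ring) (cls := cA1) ?_ nd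
    (N := nA1) ?_ (G := gA1) ?_ kA1
  · simp only [cA1, ClsOk, dot]
    refine ⟨?_, ?_, ?_, trivial⟩
    · convert d1 using 1 <;> ring1
    · convert d2 using 1 <;> first | ring1 | (rw [e1]; ring1)
    · convert d3 using 1 <;> first | ring1 | (rw [e2]; ring1)
  · clear d1 d2 d3 nd
    simp only [nA1, AllNe, dot]
    exact ⟨fun h => y1 (by omega), fun h => y2 (by omega), fun h => y3 (by omega), fun h => x01 (by omega), fun h => x02 (by omega), fun h => x03 (by omega), fun h => x12 (by omega), fun h => x13 (by omega), fun h => x23 (by omega), trivial⟩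
  · clear d1 d2 d3 nd y1 y2 y3 x01 x02 x03 x12 x13 x23
    simp only [gA1, AllNn, dot]
    refine ⟨?_, ?_, ?_, ?_, ?_, ?_, ?_, ?_, ?_, ?_, ?_, ?_, ?_, ?_, ?_, ?_, ?_, ?_, ?_, trivial⟩ <;> omega

theorem caseA2 {A : Ap} (F : A.Fl) (hr : (A.p : ℤ) < 2 * A.w + A.h) {i m s f1 f2 g1 : ℤ}
    (d1 : A.Cls i m f1 s) (d2 : A.Cls (A.p - i) (A.md - m + 0) g1 (-s))
    (d3 : A.Cls (2 * i) (2 * m + 0) f2 (2 * s)) (e1 : g1 = A.fd - f1 - 0 * A.q)
    (e2 : f2 = 2 * f1 - 0 * A.q) (r1 : 0 ≤ m) (r2 : 0 ≤ A.md - (2 * m + 0) + 0)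
    (r3 : f2 < A.fd) (s0 : 0 < s) (s1 : s < A.p) (y1 : 2 * s ≠ A.p) (y2 : 3 * s ≠ A.p)
    (y3 : 3 * s ≠ 2 * A.p) (i1 : i ≠ A.p - i) (i2 : i ≠ 2 * i) (i3 : A.p - i ≠ 2 * i) : False := by
  have hw : (2 : ℤ) ≤ A.w := by exact_mod_cast A.hw
  have hwh : (A.w : ℤ) ≤ A.h := by exact_mod_cast A.hwh
  have hh2 : 2 * (A.h : ℤ) < A.p := by exact_mod_cast A.h2
  have hmd := A.hmd
  have hmd2 := A.hmd2
  have v1 := A.hfd
  have v2 := A.hfd2
  have u1 := d1.2.2.1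
  have u2 := d1.2.2.2.1
  have u3 := d2.2.2.1
  have u4 := d2.2.2.2.1
  have u5 := d3.2.2.1
  have u6 := d3.2.2.2.1
  have x01 := d1.f_ne_fd.symm
  have x02 := d2.f_ne d1 i1.symm
  have x03 := d3.f_ne d1 i2.symm
  have x12 := d2.f_ne_fd
  have x13 := d3.f_ne_fd
  have x23 := d3.f_ne d2 i3.symm
  have nd : [i, (A.p : ℤ) - i, 2 * i].Nodup := by
    simp only [List.nodup_cons, List.mem_cons, List.not_mem_nil, or_false, not_false_eq_true,
      List.nodup_nil, and_true, not_or]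
    exact ⟨⟨i1, i2⟩, i3⟩
  refine run F (v := [(A.p : ℤ), A.w, A.h, A.md, m, s, f1, A.fd, A.q]) ⟨_, rfl⟩
    (fd := [0, 0, 0, 0, 0, 0, 0, 0, 1]) (by simp only [dot]; ring) (cls := cA2) ?_ nd
    (N := nA2) ?_ (G := gA2) ?_ kA2
  · simp only [cA2, ClsOk, dot]
    refine ⟨?_, ?_, ?_, trivial⟩
    · convert d1 using 1 <;> ring1
    · convert d2 using 1 <;> first | ring1 | (rw [e1]; ring1)
    · convert d3 using 1 <;> first | ring1 | (rw [e2]; ring1)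
  · clear d1 d2 d3 nd
    simp only [nA2, AllNe, dot]
    exact ⟨fun h => y1 (by omega), fun h => y2 (by omega), fun h => y3 (by omega), fun h => x01 (by omega), fun h => x02 (by omega), fun h => x03 (by omega), fun h => x12 (by omega), fun h => x13 (by omega), fun h => x23 (by omega), trivial⟩
  · clear d1 d2 d3 nd y1 y2 y3 x01 x02 x03 x12 x13 x23
    simp only [gA2, AllNn, dot]
    refine ⟨?_, ?_, ?_, ?_, ?_, ?_, ?_, ?_, ?_, ?_, ?_, ?_, ?_, ?_, ?_, ?_, ?_, ?_, ?_, trivial⟩ <;> omega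

theorem caseA3 {A : Ap} (F : A.Fl) (hr : (A.p : ℤ) < 2 * A.w + A.h) {i m s f1 f2 g1 : ℤ}
    (d1 : A.Cls i m f1 s) (d2 : A.Cls (A.p - i) (A.md - m + (-1)) g1 (-s))
    (d3 : A.Cls (2 * i) (2 * m + 1) f2 (2 * s)) (e1 : g1 = A.fd - f1 - (-1) * A.q)
    (e2 : f2 = 2 * f1 - 1 * A.q) (r1 : 0 ≤ m) (r2 : 0 ≤ A.md - (2 * m + 1) + (-1))
    (r3 : A.fd < f2) (s0 : 0 < s) (s1 : s < A.p) (y1 : 2 * s ≠ A.p) (y2 : 3 * s ≠ A.p)
    (y3 : 3 * s ≠ 2 * A.p) (i1 : i ≠ A.p - i) (i2 : i ≠ 2 * i) (i3 : A.p - i ≠ 2 * i) : False := by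
  have hw : (2 : ℤ) ≤ A.w := by exact_mod_cast A.hw
  have hwh : (A.w : ℤ) ≤ A.h := by exact_mod_cast A.hwh
  have hh2 : 2 * (A.h : ℤ) < A.p := by exact_mod_cast A.h2
  have hmd := A.hmd
  have hmd2 := A.hmd2
  have v1 := A.hfd
  have v2 := A.hfd2
  have u1 := d1.2.2.1
  have u2 := d1.2.2.2.1
  have u3 := d2.2.2.1
  have u4 := d2.2.2.2.1
  have u5 := d3.2.2.1
  have u6 := d3.2.2.2.1
  have x01 := d1.f_ne_fd.symm
  have x02 := d2.f_ne d1 i1.symm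
  have x03 := d3.f_ne d1 i2.symm
  have x12 := d2.f_ne_fd
  have x13 := d3.f_ne_fd
  have x23 := d3.f_ne d2 i3.symm
  have nd : [i, (A.p : ℤ) - i, 2 * i].Nodup := by
    simp only [List.nodup_cons, List.mem_cons, List.not_mem_nil, or_false, not_false_eq_true,
      List.nodup_nil, and_true, not_or]
    exact ⟨⟨i1, i2⟩, i3⟩
  refine run F (v := [(A.p : ℤ), A.w, A.h, A.md, m, s, f1, A.fd, A.q]) ⟨_, rfl⟩
    (fd := [0, 0, 0, 0, 0, 0, 0, 0, 1]) (by simp only [dot]; ring) (cls := cA3) ?_ nd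
    (N := nA3) ?_ (G := gA3) ?_ kA3
  · simp only [cA3, ClsOk, dot]
    refine ⟨?_, ?_, ?_, trivial⟩
    · convert d1 using 1 <;> ring1
    · convert d2 using 1 <;> first | ring1 | (rw [e1]; ring1)
    · convert d3 using 1 <;> first | ring1 | (rw [e2]; ring1)
  · clear d1 d2 d3 nd
    simp only [nA3, AllNe, dot]
    exact ⟨fun h => y1 (by omega), fun h => y2 (by omega), fun h => y3 (by omega), fun h => x01 (by omega), fun h => x02 (by omega), fun h => x03 (by omega), fun h => x12 (by omega), fun h => x13 (by omega), fun h => x23 (by omega), trivial⟩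
  · clear d1 d2 d3 nd y1 y2 y3 x01 x02 x03 x12 x13 x23
    simp only [gA3, AllNn, dot]
    refine ⟨?_, ?_, ?_, ?_, ?_, ?_, ?_, ?_, ?_, ?_, ?_, ?_, ?_, ?_, ?_, ?_, ?_, ?_, ?_, trivial⟩ <;> omega

theorem caseA4 {A : Ap} (F : A.Fl) (hr : (A.p : ℤ) < 2 * A.w + A.h) {i m s f1 f2 g1 : ℤ}
    (d1 : A.Cls i m f1 s) (d2 : A.Cls (A.p - i) (A.md - m + (-1)) g1 (-s))
    (d3 : A.Cls (2 * i) (2 * m + 1) f2 (2 * s)) (e1 : g1 = A.fd - f1 - (-1) * A.q)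
    (e2 : f2 = 2 * f1 - 1 * A.q) (r1 : 0 ≤ m) (r2 : 0 ≤ A.md - (2 * m + 1) + 0)
    (r3 : f2 < A.fd) (s0 : 0 < s) (s1 : s < A.p) (y1 : 2 * s ≠ A.p) (y2 : 3 * s ≠ A.p)
    (y3 : 3 * s ≠ 2 * A.p) (i1 : i ≠ A.p - i) (i2 : i ≠ 2 * i) (i3 : A.p - i ≠ 2 * i) : False := by
  have hw : (2 : ℤ) ≤ A.w := by exact_mod_cast A.hw
  have hwh : (A.w : ℤ) ≤ A.h := by exact_mod_cast A.hwh
  have hh2 : 2 * (A.h : ℤ) < A.p := by exact_mod_cast A.h2
  have hmd := A.hmd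
  have hmd2 := A.hmd2
  have v1 := A.hfd
  have v2 := A.hfd2
  have u1 := d1.2.2.1
  have u2 := d1.2.2.2.1
  have u3 := d2.2.2.1
  have u4 := d2.2.2.2.1
  have u5 := d3.2.2.1
  have u6 := d3.2.2.2.1
  have x01 := d1.f_ne_fd.symm
  have x02 := d2.f_ne d1 i1.symm
  have x03 := d3.f_ne d1 i2.symm
  have x12 := d2.f_ne_fd
  have x13 := d3.f_ne_fd
  have x23 := d3.f_ne d2 i3.symm
  have nd : [i, (A.p : ℤ) - i, 2 * i].Nodup := by
    simp only [List.nodup_cons, List.mem_cons, List.not_mem_nil, or_false, not_false_eq_true,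
      List.nodup_nil, and_true, not_or]
    exact ⟨⟨i1, i2⟩, i3⟩
  refine run F (v := [(A.p : ℤ), A.w, A.h, A.md, m, s, f1, A.fd, A.q]) ⟨_, rfl⟩
    (fd := [0, 0, 0, 0, 0, 0, 0, 0, 1]) (by simp only [dot]; ring) (cls := cA4) ?_ nd
    (N := nA4) ?_ (G := gA4) ?_ kA4
  · simp only [cA4, ClsOk, dot]
    refine ⟨?_, ?_, ?_, trivial⟩
    · convert d1 using 1 <;> ring1
    · convert d2 using 1 <;> first | ring1 | (rw [e1]; ring1)
    · convert d3 using 1 <;> first | ring1 | (rw [e2]; ring1)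
  · clear d1 d2 d3 nd
    simp only [nA4, AllNe, dot]
    exact ⟨fun h => y1 (by omega), fun h => y2 (by omega), fun h => y3 (by omega), fun h => x01 (by omega), fun h => x02 (by omega), fun h => x03 (by omega), fun h => x12 (by omega), fun h => x13 (by omega), fun h => x23 (by omega), trivial⟩
  · clear d1 d2 d3 nd y1 y2 y3 x01 x02 x03 x12 x13 x23
    simp only [gA4, AllNn, dot]
    refine ⟨?_, ?_, ?_, ?_, ?_, ?_, ?_, ?_, ?_, ?_, ?_, ?_, ?_, ?_, ?_, ?_, ?_, ?_, ?_, trivial⟩ <;> omega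

theorem caseA5 {A : Ap} (F : A.Fl) (hr : (A.p : ℤ) < 2 * A.w + A.h) {i m s f1 f2 g1 : ℤ}
    (d1 : A.Cls i m f1 s) (d2 : A.Cls (A.p - i) (A.md - m + 0) g1 (-s))
    (d3 : A.Cls (2 * i) (2 * m + 1) f2 (2 * s)) (e1 : g1 = A.fd - f1 - 0 * A.q)
    (e2 : f2 = 2 * f1 - 1 * A.q) (r1 : 0 ≤ m) (r2 : 0 ≤ A.md - (2 * m + 1) + 0)
    (r3 : f2 < A.fd) (s0 : 0 < s) (s1 : s < A.p) (y1 : 2 * s ≠ A.p) (y2 : 3 * s ≠ A.p)
    (y3 : 3 * s ≠ 2 * A.p) (i1 : i ≠ A.p - i) (i2 : i ≠ 2 * i) (i3 : A.p - i ≠ 2 * i) : False := by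
  have hw : (2 : ℤ) ≤ A.w := by exact_mod_cast A.hw
  have hwh : (A.w : ℤ) ≤ A.h := by exact_mod_cast A.hwh
  have hh2 : 2 * (A.h : ℤ) < A.p := by exact_mod_cast A.h2
  have hmd := A.hmd
  have hmd2 := A.hmd2
  have v1 := A.hfd
  have v2 := A.hfd2
  have u1 := d1.2.2.1
  have u2 := d1.2.2.2.1
  have u3 := d2.2.2.1
  have u4 := d2.2.2.2.1
  have u5 := d3.2.2.1
  have u6 := d3.2.2.2.1
  have x01 := d1.f_ne_fd.symm
  have x02 := d2.f_ne d1 i1.symm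
  have x03 := d3.f_ne d1 i2.symm
  have x12 := d2.f_ne_fd
  have x13 := d3.f_ne_fd
  have x23 := d3.f_ne d2 i3.symm
  have nd : [i, (A.p : ℤ) - i, 2 * i].Nodup := by
    simp only [List.nodup_cons, List.mem_cons, List.not_mem_nil, or_false, not_false_eq_true,
      List.nodup_nil, and_true, not_or]
    exact ⟨⟨i1, i2⟩, i3⟩
  refine run F (v := [(A.p : ℤ), A.w, A.h, A.md, m, s, f1, A.fd, A.q]) ⟨_, rfl⟩
    (fd := [0, 0, 0, 0, 0, 0, 0, 0, 1]) (by simp only [dot]; ring) (cls := cA5) ?_ nd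
    (N := nA5) ?_ (G := gA5) ?_ kA5
  · simp only [cA5, ClsOk, dot]
    refine ⟨?_, ?_, ?_, trivial⟩
    · convert d1 using 1 <;> ring1
    · convert d2 using 1 <;> first | ring1 | (rw [e1]; ring1)
    · convert d3 using 1 <;> first | ring1 | (rw [e2]; ring1)
  · clear d1 d2 d3 nd
    simp only [nA5, AllNe, dot]
    exact ⟨fun h => y1 (by omega), fun h => y2 (by omega), fun h => y3 (by omega), fun h => x01 (by omega), fun h => x02 (by omega), fun h => x03 (by omega), fun h => x12 (by omega), fun h => x13 (by omega), fun h => x23 (by omega), trivial⟩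
  · clear d1 d2 d3 nd y1 y2 y3 x01 x02 x03 x12 x13 x23
    simp only [gA5, AllNn, dot]
    refine ⟨?_, ?_, ?_, ?_, ?_, ?_, ?_, ?_, ?_, ?_, ?_, ?_, ?_, ?_, ?_, ?_, ?_, ?_, ?_, trivial⟩ <;> omega

theorem caseC0 {A : Ap} (F : A.Fl) (hr : (A.p : ℤ) < 2 * A.w + A.h) {i m s f1 f2 : ℤ}
    (d1 : A.Cls i m f1 s) (d3 : A.Cls (2 * i) (2 * m + 0) f2 (2 * s))
    (e2 : f2 = 2 * f1 - 0 * A.q) (r1 : 0 ≤ m) (r2 : A.md = 3 * m + 0)
    (r3 : A.fd = 3 * f1 - 0 * A.q) (y : 3 * s = 1 * A.p) (i2 : i ≠ 2 * i) : False := by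
  have hw : (2 : ℤ) ≤ A.w := by exact_mod_cast A.hw
  have hwh : (A.w : ℤ) ≤ A.h := by exact_mod_cast A.hwh
  have hh2 : 2 * (A.h : ℤ) < A.p := by exact_mod_cast A.h2
  have hmd := A.hmd
  have hmd2 := A.hmd2
  have v1 := A.hfd
  have v2 := A.hfd2
  have u1 := d1.2.2.1
  have u2 := d1.2.2.2.1
  have u5 := d3.2.2.1
  have u6 := d3.2.2.2.1
  have x01 := d1.f_ne_fd.symm
  have x02 := d3.f_ne d1 i2.symm
  have x12 := d3.f_ne_fd
  have nd : [i, 2 * i].Nodup := by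
    simp only [List.nodup_cons, List.mem_cons, List.not_mem_nil, or_false, not_false_eq_true,
      List.nodup_nil, and_true, not_or]
    exact i2
  refine run F (v := [(A.p : ℤ), A.w, A.h, A.md, m, s, f1, A.fd, A.q]) ⟨_, rfl⟩
    (fd := [0, 0, 0, 0, 0, 0, 0, 0, 1]) (by simp only [dot]; ring) (cls := cC0) ?_ nd
    (N := nC0) ?_ (G := gC0) ?_ kC0
  · simp only [cC0, ClsOk, dot]
    refine ⟨?_, ?_, trivial⟩
    · convert d1 using 1 <;> ring1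
    · convert d3 using 1 <;> first | ring1 | (rw [e2]; ring1)
  · clear d1 d3 nd
    simp only [nC0, AllNe, dot]
    exact ⟨fun h => x01 (by omega), fun h => x02 (by omega), fun h => x12 (by omega), trivial⟩
  · clear d1 d3 nd x01 x02 x12
    simp only [gC0, AllNn, dot]
    refine ⟨?_, ?_, ?_, ?_, ?_, ?_, ?_, ?_, ?_, ?_, ?_, ?_, ?_, ?_, ?_, ?_, ?_, ?_, ?_, ?_, ?_, trivial⟩ <;> omega

theorem caseC1 {A : Ap} (F : A.Fl) (hr : (A.p : ℤ) < 2 * A.w + A.h) {i m s f1 f2 : ℤ}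
    (d1 : A.Cls i m f1 s) (d3 : A.Cls (2 * i) (2 * m + 0) f2 (2 * s))
    (e2 : f2 = 2 * f1 - 0 * A.q) (r1 : 0 ≤ m) (r2 : A.md = 3 * m + 0)
    (r3 : A.fd = 3 * f1 - 0 * A.q) (y : 3 * s = 2 * A.p) (i2 : i ≠ 2 * i) : False := by
  have hw : (2 : ℤ) ≤ A.w := by exact_mod_cast A.hw
  have hwh : (A.w : ℤ) ≤ A.h := by exact_mod_cast A.hwh
  have hh2 : 2 * (A.h : ℤ) < A.p := by exact_mod_cast A.h2
  have hmd := A.hmd
  have hmd2 := A.hmd2
  have v1 := A.hfd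
  have v2 := A.hfd2
  have u1 := d1.2.2.1
  have u2 := d1.2.2.2.1
  have u5 := d3.2.2.1
  have u6 := d3.2.2.2.1
  have x01 := d1.f_ne_fd.symm
  have x02 := d3.f_ne d1 i2.symm
  have x12 := d3.f_ne_fd
  have nd : [i, 2 * i].Nodup := by
    simp only [List.nodup_cons, List.mem_cons, List.not_mem_nil, or_false, not_false_eq_true,
      List.nodup_nil, and_true, not_or]
    exact i2
  refine run F (v := [(A.p : ℤ), A.w, A.h, A.md, m, s, f1, A.fd, A.q]) ⟨_, rfl⟩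
    (fd := [0, 0, 0, 0, 0, 0, 0, 0, 1]) (by simp only [dot]; ring) (cls := cC1) ?_ nd
    (N := nC1) ?_ (G := gC1) ?_ kC1
  · simp only [cC1, ClsOk, dot]
    refine ⟨?_, ?_, trivial⟩
    · convert d1 using 1 <;> ring1
    · convert d3 using 1 <;> first | ring1 | (rw [e2]; ring1)
  · clear d1 d3 nd
    simp only [nC1, AllNe, dot]
    exact ⟨fun h => x01 (by omega), fun h => x02 (by omega), fun h => x12 (by omega), trivial⟩
  · clear d1 d3 nd x01 x02 x12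
    simp only [gC1, AllNn, dot]
    refine ⟨?_, ?_, ?_, ?_, ?_, ?_, ?_, ?_, ?_, ?_, ?_, ?_, ?_, ?_, ?_, ?_, ?_, ?_, ?_, ?_, ?_, trivial⟩ <;> omega

theorem caseC2 {A : Ap} (F : A.Fl) (hr : (A.p : ℤ) < 2 * A.w + A.h) {i m s f1 f2 : ℤ}
    (d1 : A.Cls i m f1 s) (d3 : A.Cls (2 * i) (2 * m + 0) f2 (2 * s))
    (e2 : f2 = 2 * f1 - 0 * A.q) (r1 : 0 ≤ m) (r2 : A.md = 3 * m + 1)
    (r3 : A.fd = 3 * f1 - 1 * A.q) (y : 3 * s = 1 * A.p) (i2 : i ≠ 2 * i) : False := by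
  have hw : (2 : ℤ) ≤ A.w := by exact_mod_cast A.hw
  have hwh : (A.w : ℤ) ≤ A.h := by exact_mod_cast A.hwh
  have hh2 : 2 * (A.h : ℤ) < A.p := by exact_mod_cast A.h2
  have hmd := A.hmd
  have hmd2 := A.hmd2
  have v1 := A.hfd
  have v2 := A.hfd2
  have u1 := d1.2.2.1
  have u2 := d1.2.2.2.1
  have u5 := d3.2.2.1
  have u6 := d3.2.2.2.1
  have x01 := d1.f_ne_fd.symm
  have x02 := d3.f_ne d1 i2.symm
  have x12 := d3.f_ne_fd
  have nd : [i, 2 * i].Nodup := by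
    simp only [List.nodup_cons, List.mem_cons, List.not_mem_nil, or_false, not_false_eq_true,
      List.nodup_nil, and_true, not_or]
    exact i2
  refine run F (v := [(A.p : ℤ), A.w, A.h, A.md, m, s, f1, A.fd, A.q]) ⟨_, rfl⟩
    (fd := [0, 0, 0, 0, 0, 0, 0, 0, 1]) (by simp only [dot]; ring) (cls := cC2) ?_ nd
    (N := nC2) ?_ (G := gC2) ?_ kC2
  · simp only [cC2, ClsOk, dot]
    refine ⟨?_, ?_, trivial⟩
    · convert d1 using 1 <;> ring1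
    · convert d3 using 1 <;> first | ring1 | (rw [e2]; ring1)
  · clear d1 d3 nd
    simp only [nC2, AllNe, dot]
    exact ⟨fun h => x01 (by omega), fun h => x02 (by omega), fun h => x12 (by omega), trivial⟩
  · clear d1 d3 nd x01 x02 x12
    simp only [gC2, AllNn, dot]
    refine ⟨?_, ?_, ?_, ?_, ?_, ?_, ?_, ?_, ?_, ?_, ?_, ?_, ?_, ?_, ?_, ?_, ?_, ?_, ?_, ?_, ?_, trivial⟩ <;> omega

theorem caseC3 {A : Ap} (F : A.Fl) (hr : (A.p : ℤ) < 2 * A.w + A.h) {i m s f1 f2 : ℤ}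
    (d1 : A.Cls i m f1 s) (d3 : A.Cls (2 * i) (2 * m + 0) f2 (2 * s))
    (e2 : f2 = 2 * f1 - 0 * A.q) (r1 : 0 ≤ m) (r2 : A.md = 3 * m + 1)
    (r3 : A.fd = 3 * f1 - 1 * A.q) (y : 3 * s = 2 * A.p) (i2 : i ≠ 2 * i) : False := by
  have hw : (2 : ℤ) ≤ A.w := by exact_mod_cast A.hw
  have hwh : (A.w : ℤ) ≤ A.h := by exact_mod_cast A.hwh
  have hh2 : 2 * (A.h : ℤ) < A.p := by exact_mod_cast A.h2
  have hmd := A.hmd
  have hmd2 := A.hmd2
  have v1 := A.hfd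
  have v2 := A.hfd2
  have u1 := d1.2.2.1
  have u2 := d1.2.2.2.1
  have u5 := d3.2.2.1
  have u6 := d3.2.2.2.1
  have x01 := d1.f_ne_fd.symm
  have x02 := d3.f_ne d1 i2.symm
  have x12 := d3.f_ne_fd
  have nd : [i, 2 * i].Nodup := by
    simp only [List.nodup_cons, List.mem_cons, List.not_mem_nil, or_false, not_false_eq_true,
      List.nodup_nil, and_true, not_or]
    exact i2
  refine run F (v := [(A.p : ℤ), A.w, A.h, A.md, m, s, f1, A.fd, A.q]) ⟨_, rfl⟩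
    (fd := [0, 0, 0, 0, 0, 0, 0, 0, 1]) (by simp only [dot]; ring) (cls := cC3) ?_ nd
    (N := nC3) ?_ (G := gC3) ?_ kC3
  · simp only [cC3, ClsOk, dot]
    refine ⟨?_, ?_, trivial⟩
    · convert d1 using 1 <;> ring1
    · convert d3 using 1 <;> first | ring1 | (rw [e2]; ring1)
  · clear d1 d3 nd
    simp only [nC3, AllNe, dot]
    exact ⟨fun h => x01 (by omega), fun h => x02 (by omega), fun h => x12 (by omega), trivial⟩
  · clear d1 d3 nd x01 x02 x12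
    simp only [gC3, AllNn, dot]
    refine ⟨?_, ?_, ?_, ?_, ?_, ?_, ?_, ?_, ?_, ?_, ?_, ?_, ?_, ?_, ?_, ?_, ?_, ?_, ?_, ?_, ?_, trivial⟩ <;> omega

theorem caseC4 {A : Ap} (F : A.Fl) (hr : (A.p : ℤ) < 2 * A.w + A.h) {i m s f1 f2 : ℤ}
    (d1 : A.Cls i m f1 s) (d3 : A.Cls (2 * i) (2 * m + 1) f2 (2 * s))
    (e2 : f2 = 2 * f1 - 1 * A.q) (r1 : 0 ≤ m) (r2 : A.md = 3 * m + 1)
    (r3 : A.fd = 3 * f1 - 1 * A.q) (y : 3 * s = 1 * A.p) (i2 : i ≠ 2 * i) : False := by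
  have hw : (2 : ℤ) ≤ A.w := by exact_mod_cast A.hw
  have hwh : (A.w : ℤ) ≤ A.h := by exact_mod_cast A.hwh
  have hh2 : 2 * (A.h : ℤ) < A.p := by exact_mod_cast A.h2
  have hmd := A.hmd
  have hmd2 := A.hmd2
  have v1 := A.hfd
  have v2 := A.hfd2
  have u1 := d1.2.2.1
  have u2 := d1.2.2.2.1
  have u5 := d3.2.2.1
  have u6 := d3.2.2.2.1
  have x01 := d1.f_ne_fd.symm
  have x02 := d3.f_ne d1 i2.symm
  have x12 := d3.f_ne_fd
  have nd : [i, 2 * i].Nodup := by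
    simp only [List.nodup_cons, List.mem_cons, List.not_mem_nil, or_false, not_false_eq_true,
      List.nodup_nil, and_true, not_or]
    exact i2
  refine run F (v := [(A.p : ℤ), A.w, A.h, A.md, m, s, f1, A.fd, A.q]) ⟨_, rfl⟩
    (fd := [0, 0, 0, 0, 0, 0, 0, 0, 1]) (by simp only [dot]; ring) (cls := cC4) ?_ nd
    (N := nC4) ?_ (G := gC4) ?_ kC4
  · simp only [cC4, ClsOk, dot]
    refine ⟨?_, ?_, trivial⟩
    · convert d1 using 1 <;> ring1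
    · convert d3 using 1 <;> first | ring1 | (rw [e2]; ring1)
  · clear d1 d3 nd
    simp only [nC4, AllNe, dot]
    exact ⟨fun h => x01 (by omega), fun h => x02 (by omega), fun h => x12 (by omega), trivial⟩
  · clear d1 d3 nd x01 x02 x12
    simp only [gC4, AllNn, dot]
    refine ⟨?_, ?_, ?_, ?_, ?_, ?_, ?_, ?_, ?_, ?_, ?_, ?_, ?_, ?_, ?_, ?_, ?_, ?_, ?_, ?_, ?_, trivial⟩ <;> omega

theorem caseC5 {A : Ap} (F : A.Fl) (hr : (A.p : ℤ) < 2 * A.w + A.h) {i m s f1 f2 : ℤ}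
    (d1 : A.Cls i m f1 s) (d3 : A.Cls (2 * i) (2 * m + 1) f2 (2 * s))
    (e2 : f2 = 2 * f1 - 1 * A.q) (r1 : 0 ≤ m) (r2 : A.md = 3 * m + 1)
    (r3 : A.fd = 3 * f1 - 1 * A.q) (y : 3 * s = 2 * A.p) (i2 : i ≠ 2 * i) : False := by
  have hw : (2 : ℤ) ≤ A.w := by exact_mod_cast A.hw
  have hwh : (A.w : ℤ) ≤ A.h := by exact_mod_cast A.hwh
  have hh2 : 2 * (A.h : ℤ) < A.p := by exact_mod_cast A.h2
  have hmd := A.hmd
  have hmd2 := A.hmd2
  have v1 := A.hfd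
  have v2 := A.hfd2
  have u1 := d1.2.2.1
  have u2 := d1.2.2.2.1
  have u5 := d3.2.2.1
  have u6 := d3.2.2.2.1
  have x01 := d1.f_ne_fd.symm
  have x02 := d3.f_ne d1 i2.symm
  have x12 := d3.f_ne_fd
  have nd : [i, 2 * i].Nodup := by
    simp only [List.nodup_cons, List.mem_cons, List.not_mem_nil, or_false, not_false_eq_true,
      List.nodup_nil, and_true, not_or]
    exact i2
  refine run F (v := [(A.p : ℤ), A.w, A.h, A.md, m, s, f1, A.fd, A.q]) ⟨_, rfl⟩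
    (fd := [0, 0, 0, 0, 0, 0, 0, 0, 1]) (by simp only [dot]; ring) (cls := cC5) ?_ nd
    (N := nC5) ?_ (G := gC5) ?_ kC5
  · simp only [cC5, ClsOk, dot]
    refine ⟨?_, ?_, trivial⟩
    · convert d1 using 1 <;> ring1
    · convert d3 using 1 <;> first | ring1 | (rw [e2]; ring1)
  · clear d1 d3 nd
    simp only [nC5, AllNe, dot]
    exact ⟨fun h => x01 (by omega), fun h => x02 (by omega), fun h => x12 (by omega), trivial⟩
  · clear d1 d3 nd x01 x02 x12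
    simp only [gC5, AllNn, dot]
    refine ⟨?_, ?_, ?_, ?_, ?_, ?_, ?_, ?_, ?_, ?_, ?_, ?_, ?_, ?_, ?_, ?_, ?_, ?_, ?_, ?_, ?_, trivial⟩ <;> omega

theorem caseC6 {A : Ap} (F : A.Fl) (hr : (A.p : ℤ) < 2 * A.w + A.h) {i m s f1 f2 : ℤ}
    (d1 : A.Cls i m f1 s) (d3 : A.Cls (2 * i) (2 * m + 1) f2 (2 * s))
    (e2 : f2 = 2 * f1 - 1 * A.q) (r1 : 0 ≤ m) (r2 : A.md = 3 * m + 2)
    (r3 : A.fd = 3 * f1 - 2 * A.q) (y : 3 * s = 1 * A.p) (i2 : i ≠ 2 * i) : False := by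
  have hw : (2 : ℤ) ≤ A.w := by exact_mod_cast A.hw
  have hwh : (A.w : ℤ) ≤ A.h := by exact_mod_cast A.hwh
  have hh2 : 2 * (A.h : ℤ) < A.p := by exact_mod_cast A.h2
  have hmd := A.hmd
  have hmd2 := A.hmd2
  have v1 := A.hfd
  have v2 := A.hfd2
  have u1 := d1.2.2.1
  have u2 := d1.2.2.2.1
  have u5 := d3.2.2.1
  have u6 := d3.2.2.2.1
  have x01 := d1.f_ne_fd.symm
  have x02 := d3.f_ne d1 i2.symm
  have x12 := d3.f_ne_fd
  have nd : [i, 2 * i].Nodup := by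
    simp only [List.nodup_cons, List.mem_cons, List.not_mem_nil, or_false, not_false_eq_true,
      List.nodup_nil, and_true, not_or]
    exact i2
  refine run F (v := [(A.p : ℤ), A.w, A.h, A.md, m, s, f1, A.fd, A.q]) ⟨_, rfl⟩
    (fd := [0, 0, 0, 0, 0, 0, 0, 0, 1]) (by simp only [dot]; ring) (cls := cC6) ?_ nd
    (N := nC6) ?_ (G := gC6) ?_ kC6
  · simp only [cC6, ClsOk, dot]
    refine ⟨?_, ?_, trivial⟩
    · convert d1 using 1 <;> ring1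
    · convert d3 using 1 <;> first | ring1 | (rw [e2]; ring1)
  · clear d1 d3 nd
    simp only [nC6, AllNe, dot]
    exact ⟨fun h => x01 (by omega), fun h => x02 (by omega), fun h => x12 (by omega), trivial⟩
  · clear d1 d3 nd x01 x02 x12
    simp only [gC6, AllNn, dot]
    refine ⟨?_, ?_, ?_, ?_, ?_, ?_, ?_, ?_, ?_, ?_, ?_, ?_, ?_, ?_, ?_, ?_, ?_, ?_, ?_, ?_, ?_, trivial⟩ <;> omega

theorem caseC7 {A : Ap} (F : A.Fl) (hr : (A.p : ℤ) < 2 * A.w + A.h) {i m s f1 f2 : ℤ}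
    (d1 : A.Cls i m f1 s) (d3 : A.Cls (2 * i) (2 * m + 1) f2 (2 * s))
    (e2 : f2 = 2 * f1 - 1 * A.q) (r1 : 0 ≤ m) (r2 : A.md = 3 * m + 2)
    (r3 : A.fd = 3 * f1 - 2 * A.q) (y : 3 * s = 2 * A.p) (i2 : i ≠ 2 * i) : False := by
  have hw : (2 : ℤ) ≤ A.w := by exact_mod_cast A.hw
  have hwh : (A.w : ℤ) ≤ A.h := by exact_mod_cast A.hwh
  have hh2 : 2 * (A.h : ℤ) < A.p := by exact_mod_cast A.h2
  have hmd := A.hmd
  have hmd2 := A.hmd2
  have v1 := A.hfd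
  have v2 := A.hfd2
  have u1 := d1.2.2.1
  have u2 := d1.2.2.2.1
  have u5 := d3.2.2.1
  have u6 := d3.2.2.2.1
  have x01 := d1.f_ne_fd.symm
  have x02 := d3.f_ne d1 i2.symm
  have x12 := d3.f_ne_fd
  have nd : [i, 2 * i].Nodup := by
    simp only [List.nodup_cons, List.mem_cons, List.not_mem_nil, or_false, not_false_eq_true,
      List.nodup_nil, and_true, not_or]
    exact i2
  refine run F (v := [(A.p : ℤ), A.w, A.h, A.md, m, s, f1, A.fd, A.q]) ⟨_, rfl⟩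
    (fd := [0, 0, 0, 0, 0, 0, 0, 0, 1]) (by simp only [dot]; ring) (cls := cC7) ?_ nd
    (N := nC7) ?_ (G := gC7) ?_ kC7
  · simp only [cC7, ClsOk, dot]
    refine ⟨?_, ?_, trivial⟩
    · convert d1 using 1 <;> ring1
    · convert d3 using 1 <;> first | ring1 | (rw [e2]; ring1)
  · clear d1 d3 nd
    simp only [nC7, AllNe, dot]
    exact ⟨fun h => x01 (by omega), fun h => x02 (by omega), fun h => x12 (by omega), trivial⟩
  · clear d1 d3 nd x01 x02 x12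
    simp only [gC7, AllNn, dot]
    refine ⟨?_, ?_, ?_, ?_, ?_, ?_, ?_, ?_, ?_, ?_, ?_, ?_, ?_, ?_, ?_, ?_, ?_, ?_, ?_, ?_, ?_, trivial⟩ <;> omega

end Pool.Agent.H23.FF
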