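import Pool.Agent.H23.FF.TreeB0
import Pool.Agent.H23.FF.TreeB1
import Pool.Agent.H23.FF.TreeD

/-! Cases (generated). -/

set_option linter.all false

namespace Pool.Agent.H23.FF

open Pool.Agent.H98.Flat (Ap InA)
open Pool.Agent.H98.Flat.Ap
open Pool.Agent.H81.AP

theorem caseB0 {A : Ap} (F : A.Fl) (hr1 : A.w = A.h) (hr2 : 3 * (A.w : ℤ) ≤ A.p)
    (hr3 : (A.p : ℤ) < 4 * A.w) {i n m s f1 g1 mn fn : ℤ}
    (d1 : A.Cls i m f1 s) (d2 : A.Cls (A.p - i) (A.md - m + (-1)) g1 (-s))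
    (d3 : A.Cls n mn fn 1) (e1 : g1 = A.fd - f1 - (-1) * A.q)
    (r1 : 0 ≤ m) (r2 : 0 ≤ A.md - m + (-1)) (r3 : 0 ≤ mn) (r4 : mn < A.p)
    (s0 : 0 < s) (s1 : s < A.p) (y1 : 2 * s ≠ A.p) (y2 : s ≠ 1)
    (y3 : s ≠ A.p - 1) (i1 : i ≠ A.p - i) (i2 : i ≠ n) (i3 : A.p - i ≠ n) : False := by
  have hw : (2 : ℤ) ≤ A.w := by exact_mod_cast A.hw
  have hwh : (A.w : ℤ) ≤ A.h := by exact_mod_cast A.hwh
  have hh2 : 2 * (A.h : ℤ) < A.p := by exact_mod_cast A.h2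
  have hmd := A.hmd
  have hmd2 := A.hmd2
  have v1 := A.hfd
  have v2 := A.hfd2
  have hr1' : (A.w : ℤ) = A.h := by exact_mod_cast hr1
  have u1 := d1.2.2.1
  have u2 := d1.2.2.2.1
  have u3 := d2.2.2.1
  have u4 := d2.2.2.2.1
  have u5 := d3.2.2.1
  have u6 := d3.2.2.2.1
  have x01 := d1.f_ne_fd.symm
  have x02 := d2.f_ne d1 i1.symm
  have x03 := d3.f_ne d1 i2.symm
  have x12 := d2.f_ne_fd
  have x13 := d3.f_ne_fd
  have x23 := d3.f_ne d2 i3.symm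
  have nd : [i, (A.p : ℤ) - i, n].Nodup := by
    simp only [List.nodup_cons, List.mem_cons, List.not_mem_nil, or_false, not_false_eq_true,
      List.nodup_nil, and_true, not_or]
    exact ⟨⟨i1, i2⟩, i3⟩
  refine run F (v := [(A.p : ℤ), A.w, A.h, A.md, m, s, mn, f1, fn, A.fd, A.q]) ⟨_, rfl⟩
    (fd := [0, 0, 0, 0, 0, 0, 0, 0, 0, 0, 1]) (by simp only [dot]; ring) (cls := cB0) ?_ nd
    (N := nB0) ?_ (G := gB0) ?_ kB0
  · simp only [cB0, ClsOk, dot]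
    refine ⟨?_, ?_, ?_, trivial⟩
    · convert d1 using 1 <;> ring1
    · convert d2 using 1 <;> first | ring1 | (rw [e1]; ring1)
    · convert d3 using 1 <;> ring1
  · clear d1 d2 d3 nd
    simp only [nB0, AllNe, dot]
    exact ⟨fun h => y1 (by omega), fun h => y2 (by omega), fun h => y3 (by omega), fun h => x01 (by omega), fun h => x02 (by omega), fun h => x03 (by omega), fun h => x12 (by omega), fun h => x13 (by omega), fun h => x23 (by omega), trivial⟩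
  · clear d1 d2 d3 nd y1 y2 y3 x01 x02 x03 x12 x13 x23
    simp only [gB0, AllNn, dot]
    refine ⟨?_, ?_, ?_, ?_, ?_, ?_, ?_, ?_, ?_, ?_, ?_, ?_, ?_, ?_, ?_, ?_, ?_, ?_, ?_, ?_, ?_, ?_, trivial⟩ <;> omega

theorem caseB1 {A : Ap} (F : A.Fl) (hr1 : A.w = A.h) (hr2 : 3 * (A.w : ℤ) ≤ A.p)
    (hr3 : (A.p : ℤ) < 4 * A.w) {i n m s f1 g1 mn fn : ℤ}
    (d1 : A.Cls i m f1 s) (d2 : A.Cls (A.p - i) (A.md - m + 0) g1 (-s))
    (d3 : A.Cls n mn fn 1) (e1 : g1 = A.fd - f1 - 0 * A.q)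
    (r1 : 0 ≤ m) (r2 : 0 ≤ A.md - m + 0) (r3 : 0 ≤ mn) (r4 : mn < A.p)
    (s0 : 0 < s) (s1 : s < A.p) (y1 : 2 * s ≠ A.p) (y2 : s ≠ 1)
    (y3 : s ≠ A.p - 1) (i1 : i ≠ A.p - i) (i2 : i ≠ n) (i3 : A.p - i ≠ n) : False := by
  have hw : (2 : ℤ) ≤ A.w := by exact_mod_cast A.hw
  have hwh : (A.w : ℤ) ≤ A.h := by exact_mod_cast A.hwh
  have hh2 : 2 * (A.h : ℤ) < A.p := by exact_mod_cast A.h2
  have hmd := A.hmd
  have hmd2 := A.hmd2
  have v1 := A.hfd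
  have v2 := A.hfd2
  have hr1' : (A.w : ℤ) = A.h := by exact_mod_cast hr1
  have u1 := d1.2.2.1
  have u2 := d1.2.2.2.1
  have u3 := d2.2.2.1
  have u4 := d2.2.2.2.1
  have u5 := d3.2.2.1
  have u6 := d3.2.2.2.1
  have x01 := d1.f_ne_fd.symm
  have x02 := d2.f_ne d1 i1.symm
  have x03 := d3.f_ne d1 i2.symm
  have x12 := d2.f_ne_fd
  have x13 := d3.f_ne_fd
  have x23 := d3.f_ne d2 i3.symm
  have nd : [i, (A.p : ℤ) - i, n].Nodup := by
    simp only [List.nodup_cons, List.mem_cons, List.not_mem_nil, or_false, not_false_eq_true,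
      List.nodup_nil, and_true, not_or]
    exact ⟨⟨i1, i2⟩, i3⟩
  refine run F (v := [(A.p : ℤ), A.w, A.h, A.md, m, s, mn, f1, fn, A.fd, A.q]) ⟨_, rfl⟩
    (fd := [0, 0, 0, 0, 0, 0, 0, 0, 0, 0, 1]) (by simp only [dot]; ring) (cls := cB1) ?_ nd
    (N := nB1) ?_ (G := gB1) ?_ kB1
  · simp only [cB1, ClsOk, dot]
    refine ⟨?_, ?_, ?_, trivial⟩
    · convert d1 using 1 <;> ring1
    · convert d2 using 1 <;> first | ring1 | (rw [e1]; ring1)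
    · convert d3 using 1 <;> ring1
  · clear d1 d2 d3 nd
    simp only [nB1, AllNe, dot]
    exact ⟨fun h => y1 (by omega), fun h => y2 (by omega), fun h => y3 (by omega), fun h => x01 (by omega), fun h => x02 (by omega), fun h => x03 (by omega), fun h => x12 (by omega), fun h => x13 (by omega), fun h => x23 (by omega), trivial⟩
  · clear d1 d2 d3 nd y1 y2 y3 x01 x02 x03 x12 x13 x23
    simp only [gB1, AllNn, dot]
    refine ⟨?_, ?_, ?_, ?_, ?_, ?_, ?_, ?_, ?_, ?_, ?_, ?_, ?_, ?_, ?_, ?_, ?_, ?_, ?_, ?_, ?_, ?_, trivial⟩ <;> omega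

theorem caseD0 {A : Ap} (F : A.Fl) (hr : (A.p : ℤ) < 2 * A.w + A.h) {i n m s f1 mn fn : ℤ}
    (d1 : A.Cls i m f1 s) (d3 : A.Cls n mn fn 1)
    (r1 : 0 ≤ m) (r2 : A.md = 2 * m + 0) (r3 : 0 ≤ mn) (r4 : mn < A.p)
    (r5 : A.fd = 2 * f1 - 0 * A.q) (y : 2 * s = A.p) (i2 : i ≠ n) : False := by
  have hw : (2 : ℤ) ≤ A.w := by exact_mod_cast A.hw
  have hwh : (A.w : ℤ) ≤ A.h := by exact_mod_cast A.hwh
  have hh2 : 2 * (A.h : ℤ) < A.p := by exact_mod_cast A.h2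
  have hmd := A.hmd
  have hmd2 := A.hmd2
  have v1 := A.hfd
  have v2 := A.hfd2
  have u1 := d1.2.2.1
  have u2 := d1.2.2.2.1
  have u5 := d3.2.2.1
  have u6 := d3.2.2.2.1
  have x01 := d1.f_ne_fd.symm
  have x02 := d3.f_ne d1 i2.symm
  have x12 := d3.f_ne_fd
  have nd : [i, n].Nodup := by
    simp only [List.nodup_cons, List.mem_cons, List.not_mem_nil, or_false, not_false_eq_true,
      List.nodup_nil, and_true, not_or]
    exact i2
  refine run F (v := [(A.p : ℤ), A.w, A.h, A.md, m, s, mn, f1, fn, A.fd, A.q]) ⟨_, rfl⟩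
    (fd := [0, 0, 0, 0, 0, 0, 0, 0, 0, 0, 1]) (by simp only [dot]; ring) (cls := cD0) ?_ nd
    (N := nD0) ?_ (G := gD0) ?_ kD0
  · simp only [cD0, ClsOk, dot]
    refine ⟨?_, ?_, trivial⟩
    · convert d1 using 1 <;> ring1
    · convert d3 using 1 <;> ring1
  · clear d1 d3 nd
    simp only [nD0, AllNe, dot]
    exact ⟨fun h => x01 (by omega), fun h => x02 (by omega), fun h => x12 (by omega), trivial⟩
  · clear d1 d3 nd x01 x02 x12
    simp only [gD0, AllNn, dot]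
    refine ⟨?_, ?_, ?_, ?_, ?_, ?_, ?_, ?_, ?_, ?_, ?_, ?_, ?_, ?_, ?_, ?_, ?_, ?_, ?_, ?_, ?_, ?_, ?_, trivial⟩ <;> omega

theorem caseD1 {A : Ap} (F : A.Fl) (hr : (A.p : ℤ) < 2 * A.w + A.h) {i n m s f1 mn fn : ℤ}
    (d1 : A.Cls i m f1 s) (d3 : A.Cls n mn fn 1)
    (r1 : 0 ≤ m) (r2 : A.md = 2 * m + 1) (r3 : 0 ≤ mn) (r4 : mn < A.p)
    (r5 : A.fd = 2 * f1 - 1 * A.q) (y : 2 * s = A.p) (i2 : i ≠ n) : False := by
  have hw : (2 : ℤ) ≤ A.w := by exact_mod_cast A.hw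
  have hwh : (A.w : ℤ) ≤ A.h := by exact_mod_cast A.hwh
  have hh2 : 2 * (A.h : ℤ) < A.p := by exact_mod_cast A.h2
  have hmd := A.hmd
  have hmd2 := A.hmd2
  have v1 := A.hfd
  have v2 := A.hfd2
  have u1 := d1.2.2.1
  have u2 := d1.2.2.2.1
  have u5 := d3.2.2.1
  have u6 := d3.2.2.2.1
  have x01 := d1.f_ne_fd.symm
  have x02 := d3.f_ne d1 i2.symm
  have x12 := d3.f_ne_fd
  have nd : [i, n].Nodup := by
    simp only [List.nodup_cons, List.mem_cons, List.not_mem_nil, or_false, not_false_eq_true,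
      List.nodup_nil, and_true, not_or]
    exact i2
  refine run F (v := [(A.p : ℤ), A.w, A.h, A.md, m, s, mn, f1, fn, A.fd, A.q]) ⟨_, rfl⟩
    (fd := [0, 0, 0, 0, 0, 0, 0, 0, 0, 0, 1]) (by simp only [dot]; ring) (cls := cD1) ?_ nd
    (N := nD1) ?_ (G := gD1) ?_ kD1
  · simp only [cD1, ClsOk, dot]
    refine ⟨?_, ?_, trivial⟩
    · convert d1 using 1 <;> ring1
    · convert d3 using 1 <;> ring1
  · clear d1 d3 nd
    simp only [nD1, AllNe, dot]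
    exact ⟨fun h => x01 (by omega), fun h => x02 (by omega), fun h => x12 (by omega), trivial⟩
  · clear d1 d3 nd x01 x02 x12
    simp only [gD1, AllNn, dot]
    refine ⟨?_, ?_, ?_, ?_, ?_, ?_, ?_, ?_, ?_, ?_, ?_, ?_, ?_, ?_, ?_, ?_, ?_, ?_, ?_, ?_, ?_, ?_, ?_, trivial⟩ <;> omega

theorem caseE0 {A : Ap} (F : A.Fl) (hr1 : A.w = A.h) (hr2 : 3 * (A.w : ℤ) ≤ A.p)
    (hr3 : (A.p : ℤ) < 4 * A.w) {i n m s f1 mn fn : ℤ}
    (d1 : A.Cls i m f1 s) (d3 : A.Cls n mn fn 1)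
    (r1 : 0 ≤ m) (r2 : A.md = 2 * m + 0) (r3 : 0 ≤ mn) (r4 : mn < A.p)
    (r5 : A.fd = 2 * f1 - 0 * A.q) (y : 2 * s = A.p) (i2 : i ≠ n) : False := by
  have hw : (2 : ℤ) ≤ A.w := by exact_mod_cast A.hw
  have hwh : (A.w : ℤ) ≤ A.h := by exact_mod_cast A.hwh
  have hh2 : 2 * (A.h : ℤ) < A.p := by exact_mod_cast A.h2
  have hmd := A.hmd
  have hmd2 := A.hmd2
  have v1 := A.hfd
  have v2 := A.hfd2
  have hr1' : (A.w : ℤ) = A.h := by exact_mod_cast hr1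
  have u1 := d1.2.2.1
  have u2 := d1.2.2.2.1
  have u5 := d3.2.2.1
  have u6 := d3.2.2.2.1
  have x01 := d1.f_ne_fd.symm
  have x02 := d3.f_ne d1 i2.symm
  have x12 := d3.f_ne_fd
  have nd : [i, n].Nodup := by
    simp only [List.nodup_cons, List.mem_cons, List.not_mem_nil, or_false, not_false_eq_true,
      List.nodup_nil, and_true, not_or]
    exact i2
  refine run F (v := [(A.p : ℤ), A.w, A.h, A.md, m, s, mn, f1, fn, A.fd, A.q]) ⟨_, rfl⟩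
    (fd := [0, 0, 0, 0, 0, 0, 0, 0, 0, 0, 1]) (by simp only [dot]; ring) (cls := cE0) ?_ nd
    (N := nE0) ?_ (G := gE0) ?_ kE0
  · simp only [cE0, ClsOk, dot]
    refine ⟨?_, ?_, trivial⟩
    · convert d1 using 1 <;> ring1
    · convert d3 using 1 <;> ring1
  · clear d1 d3 nd
    simp only [nE0, AllNe, dot]
    exact ⟨fun h => x01 (by omega), fun h => x02 (by omega), fun h => x12 (by omega), trivial⟩
  · clear d1 d3 nd x01 x02 x12
    simp only [gE0, AllNn, dot]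
    refine ⟨?_, ?_, ?_, ?_, ?_, ?_, ?_, ?_, ?_, ?_, ?_, ?_, ?_, ?_, ?_, ?_, ?_, ?_, ?_, ?_, ?_, ?_, ?_, ?_, ?_, trivial⟩ <;> omega

theorem caseE1 {A : Ap} (F : A.Fl) (hr1 : A.w = A.h) (hr2 : 3 * (A.w : ℤ) ≤ A.p)
    (hr3 : (A.p : ℤ) < 4 * A.w) {i n m s f1 mn fn : ℤ}
    (d1 : A.Cls i m f1 s) (d3 : A.Cls n mn fn 1)
    (r1 : 0 ≤ m) (r2 : A.md = 2 * m + 1) (r3 : 0 ≤ mn) (r4 : mn < A.p)
    (r5 : A.fd = 2 * f1 - 1 * A.q) (y : 2 * s = A.p) (i2 : i ≠ n) : False := by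
  have hw : (2 : ℤ) ≤ A.w := by exact_mod_cast A.hw
  have hwh : (A.w : ℤ) ≤ A.h := by exact_mod_cast A.hwh
  have hh2 : 2 * (A.h : ℤ) < A.p := by exact_mod_cast A.h2
  have hmd := A.hmd
  have hmd2 := A.hmd2
  have v1 := A.hfd
  have v2 := A.hfd2
  have hr1' : (A.w : ℤ) = A.h := by exact_mod_cast hr1
  have u1 := d1.2.2.1
  have u2 := d1.2.2.2.1
  have u5 := d3.2.2.1
  have u6 := d3.2.2.2.1
  have x01 := d1.f_ne_fd.symm
  have x02 := d3.f_ne d1 i2.symm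
  have x12 := d3.f_ne_fd
  have nd : [i, n].Nodup := by
    simp only [List.nodup_cons, List.mem_cons, List.not_mem_nil, or_false, not_false_eq_true,
      List.nodup_nil, and_true, not_or]
    exact i2
  refine run F (v := [(A.p : ℤ), A.w, A.h, A.md, m, s, mn, f1, fn, A.fd, A.q]) ⟨_, rfl⟩
    (fd := [0, 0, 0, 0, 0, 0, 0, 0, 0, 0, 1]) (by simp only [dot]; ring) (cls := cE1) ?_ nd
    (N := nE1) ?_ (G := gE1) ?_ kE1
  · simp only [cE1, ClsOk, dot]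
    refine ⟨?_, ?_, trivial⟩
    · convert d1 using 1 <;> ring1
    · convert d3 using 1 <;> ring1
  · clear d1 d3 nd
    simp only [nE1, AllNe, dot]
    exact ⟨fun h => x01 (by omega), fun h => x02 (by omega), fun h => x12 (by omega), trivial⟩
  · clear d1 d3 nd x01 x02 x12
    simp only [gE1, AllNn, dot]
    refine ⟨?_, ?_, ?_, ?_, ?_, ?_, ?_, ?_, ?_, ?_, ?_, ?_, ?_, ?_, ?_, ?_, ?_, ?_, ?_, ?_, ?_, ?_, ?_, ?_, ?_, trivial⟩ <;> omega

end Pool.Agent.H23.FF
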