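import Pool.Agent.H23.FF.CaseA
import Pool.Agent.H23.FF.CaseB
import Pool.Agent.H81.AP.JBase

/-! Outside of the regime `2w + h ≤ p` (and `4w < p` if `w = h`): the case `1 < gcd (T, p) < p`. -/

namespace Pool.Agent.H23.FF

open Pool.Agent.H98.Flat (Ap InA)
open Pool.Agent.H98.Flat.Ap
open Pool.Agent.H81.AP

variable {A : Ap}

/-- the class `i = p / g` : `g U = d` -/
theorem exists_i0 {D T g i T' : ℤ} (hD : (A.q : ℤ) * A.md + A.fd = A.p * D) (D0 : 0 < D)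
    (ha : A.a = D + A.q * T) (hg : g * i = A.p) (hT : T = g * T') (i0 : 0 < i) (g1 : 1 < g) :
    ∃ m f s, A.Cls i m f s ∧ 0 ≤ m ∧ g * (A.q * m + f) = A.q * A.md + A.fd ∧
      0 < s ∧ s < A.p := by
  have hp := A.p_pos'
  have hq := A.q_pos'
  have ip : i < A.p := by nlinarith
  have f0 := Int.emod_nonneg (D * i) hq.ne'
  have f1 := Int.emod_lt_of_pos (D * i) hq
  have fe := Int.emod_add_mul_ediv (D * i) A.q
  have fn : (D * i) % A.q ≠ 0 := by
    intro h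
    obtain ⟨t, ht⟩ := Int.dvd_of_emod_eq_zero h
    apply not_dvd_ai (A := A) i0 ip.le
    rw [ha]
    exact ⟨t + T * i, by linear_combination ht⟩
  have s0 := Int.emod_nonneg (A.e * i) hp.ne'
  have s1 := Int.emod_lt_of_pos (A.e * i) hp
  have se := Int.emod_add_mul_ediv (A.e * i) A.p
  have sn : (A.e * i) % A.p ≠ 0 := by
    intro h
    exact not_dvd_e (A := A) i0 ip (Int.dvd_of_emod_eq_zero h)
  refine ⟨D * i / A.q, (D * i) % A.q, (A.e * i) % A.p, ⟨i0, ip, by omega, f1, ⟨T', ?_⟩,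
    ⟨A.e * i / A.p, by linear_combination -se⟩⟩, ?_, ?_, by omega, s1⟩
  · rw [ha, hT]
    linear_combination -fe + A.q * T' * hg
  · exact Int.ediv_nonneg (by positivity) hq.le
  · linear_combination g * fe + D * hg - hD

/-- multiples of a row -/
theorem row_ne {i m f s k l : ℤ} (hc : A.Cls i m f s) (h0 : 0 < k * i) (h1 : k * i < A.p) :
    k * s ≠ l * A.p := by
  intro h
  obtain ⟨u, hu⟩ := hc.2.2.2.2.2
  exact not_dvd_e (A := A) h0 h1 ⟨k * u + l, by linear_combination k * hu + h⟩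

/-- the class of row `1` -/
theorem exists_n (A : Ap) : ∃ n m f, A.Cls n m f 1 ∧ 0 ≤ m ∧ m < A.p := by
  have hp := A.p_pos'
  have h2 := A.h2z
  have hwh := A.hwh
  have hw := A.hw
  obtain ⟨n, m, f, h, h0, h1⟩ := Cls.row (A := A) (s := 1) (fun h => by
    have := Int.le_of_dvd (by norm_num) h
    omega) 0
  exact ⟨n, m, f, h, h0, by omega⟩

/-- the row `1` class is not a multiple of `i = p / g` -/
theorem n_ne {g i n m f c : ℤ} (hg : g * i = A.p) (i1 : 1 < i) (hn : A.Cls n m f 1)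
    (h : n = c * i) : False := by
  obtain ⟨u, hu⟩ := hn.2.2.2.2.2
  have : i ∣ 1 := ⟨A.e * c - g * u, by linear_combination -hu + A.e * h + u * hg⟩
  have := Int.le_of_dvd (by norm_num) this
  omega

/-- the opposite class -/
theorem opp {i m f s : ℤ} (h : A.Cls i m f s) : ∃ n g : ℤ, (n = 0 ∨ n = -1) ∧
    g = A.fd - f - n * A.q ∧ 0 < g ∧ g < A.q ∧ A.Cls (A.p - i) (A.md - m + n) g (-s) := by
  rcases h.neg with ⟨h1, h2⟩ | ⟨h1, h2⟩
  · exact ⟨0, _, Or.inl rfl, by ring, h2.2.2.1, h2.2.2.2.1, by convert h2 using 1; ring⟩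
  · exact ⟨-1, _, Or.inr rfl, by ring, h2.2.2.1, h2.2.2.2.1, by convert h2 using 1; ring⟩

/-- the double class -/
theorem dbl {i m f s : ℤ} (h : A.Cls i m f s) (h2 : 2 * i < A.p) : ∃ c g : ℤ, (c = 0 ∨ c = 1) ∧
    g = 2 * f - c * A.q ∧ 0 < g ∧ g < A.q ∧ A.Cls (2 * i) (2 * m + c) g (2 * s) := by
  rcases h.add h (by omega) with ⟨h1, h3⟩ | ⟨h1, h3⟩
  · refine ⟨0, f + f, Or.inl rfl, by ring, h3.2.2.1, h3.2.2.2.1, ?_⟩
    convert h3 using 1 <;> ring
  · refine ⟨1, f + f - A.q, Or.inr rfl, by ring, h3.2.2.1, h3.2.2.2.1, ?_⟩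
    convert h3 using 1 <;> ring

/-- `g ≥ 4` and `p < 2 w + h` -/
theorem falseA (F : A.Fl) (hr : (A.p : ℤ) < 2 * A.w + A.h) {g i m f s : ℤ} (hg : g * i = A.p)
    (g4 : 4 ≤ g) (hc : A.Cls i m f s) (hm : 0 ≤ m)
    (hx : g * (A.q * m + f) = A.q * A.md + A.fd) (s0 : 0 < s) (s1 : s < A.p) : False := by
  have hq := A.q_pos'
  have i0 := hc.1
  have v1 := A.hfd
  have v2 := A.hfd2
  have h4 : 4 * i ≤ A.p := by nlinarith
  have y1 : 2 * s ≠ 1 * A.p := row_ne hc (by omega) (by omega)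
  have y2 : 3 * s ≠ 1 * A.p := row_ne hc (by omega) (by omega)
  have y3 : 3 * s ≠ 2 * A.p := row_ne hc (by omega) (by omega)
  rw [one_mul] at y1 y2
  obtain ⟨n1, g1, hn1, e1, a3, a4, d2⟩ := opp hc
  obtain ⟨c2, f2, hc2, e2, a5, a6, d3⟩ := dbl hc (by omega)
  have a1 := hc.2.2.1
  have a2 := hc.2.2.2.1
  have i1 : i ≠ A.p - i := by omega
  have i2 : i ≠ 2 * i := by omega
  have i3 : A.p - i ≠ 2 * i := by omega
  -- `2 x < d`
  have hx2 : 4 * (A.q * m + f) ≤ A.q * A.md + A.fd := by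
    rw [← hx]; have : 0 < A.q * m + f := by positivity
    nlinarith
  have hx3 : A.q * (2 * m + c2) + f2 < A.q * A.md + A.fd := by
    have : 0 < A.q * m + f := by positivity
    rw [e2]; nlinarith
  have hf : f2 ≠ A.fd := d3.f_ne_fd
  obtain ⟨n2, hn2, r2⟩ : ∃ n2 : ℤ, ((n2 = 0 ∧ f2 < A.fd) ∨ (n2 = -1 ∧ A.fd < f2)) ∧
      0 ≤ A.md - (2 * m + c2) + n2 := by
    rcases lt_or_gt_of_ne hf with h | h
    · refine ⟨0, Or.inl ⟨rfl, h⟩, ?_⟩
      by_contra hh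
      have : A.md + 1 ≤ 2 * m + c2 := by omega
      nlinarith
    · refine ⟨-1, Or.inr ⟨rfl, h⟩, ?_⟩
      by_contra hh
      have : A.md ≤ 2 * m + c2 := by omega
      nlinarith
  rcases hc2 with rfl | rfl <;> rcases hn1 with rfl | rfl <;>
    rcases hn2 with ⟨rfl, hn2⟩ | ⟨rfl, hn2⟩
  · exact caseA2 F hr hc d2 d3 e1 e2 hm r2 hn2 s0 s1 y1 y2 y3 i1 i2 i3
  · exact caseA1 F hr hc d2 d3 e1 e2 hm r2 hn2 s0 s1 y1 y2 y3 i1 i2 i3
  · omega
  · exact caseA0 F hr hc d2 d3 e1 e2 hm r2 hn2 s0 s1 y1 y2 y3 i1 i2 i3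
  · exact caseA5 F hr hc d2 d3 e1 e2 hm r2 hn2 s0 s1 y1 y2 y3 i1 i2 i3
  · omega
  · exact caseA4 F hr hc d2 d3 e1 e2 hm r2 hn2 s0 s1 y1 y2 y3 i1 i2 i3
  · exact caseA3 F hr hc d2 d3 e1 e2 hm r2 hn2 s0 s1 y1 y2 y3 i1 i2 i3

/-- `g ≥ 3`, `w = h` and `p < 4 w` -/
theorem falseB (F : A.Fl) (hr1 : A.w = A.h) (hr2 : 3 * (A.w : ℤ) ≤ A.p)
    (hr3 : (A.p : ℤ) < 4 * A.w) {g i m f s : ℤ} (hg : g * i = A.p)
    (g3 : 3 ≤ g) (i1' : 1 < i) (hc : A.Cls i m f s) (hm : 0 ≤ m)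
    (hx : g * (A.q * m + f) = A.q * A.md + A.fd) (s0 : 0 < s) (s1 : s < A.p) : False := by
  have hq := A.q_pos'
  have i0 := hc.1
  have v1 := A.hfd
  have v2 := A.hfd2
  have h4 : 3 * i ≤ A.p := by nlinarith
  have y1 : 2 * s ≠ 1 * A.p := row_ne hc (by omega) (by omega)
  rw [one_mul] at y1
  obtain ⟨n1, g1, hn1, e1, a3, a4, d2⟩ := opp hc
  obtain ⟨n, mn, fn, d3, b0, b1⟩ := exists_n A
  have a1 := hc.2.2.1
  have a2 := hc.2.2.2.1
  have i1 : i ≠ A.p - i := by omega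
  have i2 : i ≠ n := fun h => n_ne (c := 1) hg i1' d3 (by rw [one_mul]; exact h.symm)
  have i3 : A.p - i ≠ n := fun h => n_ne (c := g - 1) hg i1' d3 (by linear_combination -h - hg)
  have y2 : s ≠ 1 := by
    rintro rfl
    exact i2 (hc.row_inj d3 (by simp))
  have y3 : s ≠ A.p - 1 := by
    rintro rfl
    exact i3 (d2.row_inj d3 ⟨-1, by ring⟩)
  have hx3 : A.q * m + f < A.q * A.md + A.fd := by
    have : 0 < A.q * m + f := by positivity
    nlinarith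
  have r2 : 0 ≤ A.md - m + n1 := by
    rcases hn1 with rfl | rfl
    · by_contra hh
      have : A.md + 1 ≤ m := by omega
      nlinarith
    · by_contra hh
      have : A.md ≤ m := by omega
      nlinarith
  rcases hn1 with rfl | rfl
  · exact caseB1 F hr1 hr2 hr3 hc d2 d3 e1 hm r2 b0 b1 s0 s1 y1 y2 y3 i1 i2 i3
  · exact caseB0 F hr1 hr2 hr3 hc d2 d3 e1 hm r2 b0 b1 s0 s1 y1 y2 y3 i1 i2 i3

/-- `g = 3` and `p < 2 w + h` -/
theorem falseC (F : A.Fl) (hr : (A.p : ℤ) < 2 * A.w + A.h) {i m f s : ℤ} (hg : 3 * i = A.p)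
    (hc : A.Cls i m f s) (hm : 0 ≤ m)
    (hx : 3 * (A.q * m + f) = A.q * A.md + A.fd) (s0 : 0 < s) (s1 : s < A.p) : False := by
  have hq := A.q_pos'
  have hp := A.p_pos'
  have i0 := hc.1
  have v1 := A.hfd
  have v2 := A.hfd2
  obtain ⟨c2, f2, hc2, e2, a5, a6, d3⟩ := dbl hc (by omega)
  have a1 := hc.2.2.1
  have a2 := hc.2.2.2.1
  have i2 : i ≠ 2 * i := by omega
  -- `s = ± p / 3`
  obtain ⟨t, ht, y⟩ : ∃ t : ℤ, (t = 1 ∨ t = 2) ∧ 3 * s = t * A.p := by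
    obtain ⟨u, hu⟩ := hc.2.2.2.2.2
    have h3 : 3 * s = (A.e - 3 * u) * A.p := by linear_combination A.e * hg - 3 * hu
    refine ⟨A.e - 3 * u, ?_, h3⟩
    have h1 : 0 < A.e - 3 * u := by
      by_contra hh
      have : A.e - 3 * u ≤ 0 := by omega
      nlinarith
    have h2 : A.e - 3 * u < 3 := by
      by_contra hh
      have : 3 ≤ A.e - 3 * u := by omega
      nlinarith
    omega
  -- `d = 3 x`
  obtain ⟨c, hcc, r2, r3⟩ : ∃ c : ℤ, (c = 0 ∨ c = 1 ∨ c = 2) ∧ A.md = 3 * m + c ∧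
      A.fd = 3 * f - c * A.q := by
    have h3 : A.q * (A.md - 3 * m) = 3 * f - A.fd := by linear_combination -hx
    have h1 : -1 < A.md - 3 * m := by
      by_contra hh
      have : A.md - 3 * m ≤ -1 := by omega
      nlinarith
    have h2 : A.md - 3 * m < 3 := by
      by_contra hh
      have : 3 ≤ A.md - 3 * m := by omega
      nlinarith
    exact ⟨A.md - 3 * m, by omega, by ring, by linear_combination h3⟩
  rcases ht with rfl | rfl <;> rcases hcc with rfl | rfl | rfl <;> rcases hc2 with rfl | rfl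
  · exact caseC0 F hr hc d3 e2 hm r2 r3 y i2
  · omega
  · exact caseC2 F hr hc d3 e2 hm r2 r3 y i2
  · exact caseC4 F hr hc d3 e2 hm r2 r3 y i2
  · omega
  · exact caseC6 F hr hc d3 e2 hm r2 r3 y i2
  · exact caseC1 F hr hc d3 e2 hm r2 r3 y i2
  · omega
  · exact caseC3 F hr hc d3 e2 hm r2 r3 y i2
  · exact caseC5 F hr hc d3 e2 hm r2 r3 y i2
  · omega
  · exact caseC7 F hr hc d3 e2 hm r2 r3 y i2

/-- `g = 2` -/
theorem falseD (F : A.Fl) (h : (A.p : ℤ) < 2 * A.w + A.h ∨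
      (A.w = A.h ∧ 3 * (A.w : ℤ) ≤ A.p ∧ (A.p : ℤ) < 4 * A.w)) {i m f s : ℤ} (hg : 2 * i = A.p)
    (hc : A.Cls i m f s) (hm : 0 ≤ m)
    (hx : 2 * (A.q * m + f) = A.q * A.md + A.fd) (s0 : 0 < s) (s1 : s < A.p) : False := by
  have hq := A.q_pos'
  have hp := A.p_pos'
  have h2 := A.h2z
  have hwh := A.hwh
  have hw := A.hw
  have i0 := hc.1
  have v1 := A.hfd
  have v2 := A.hfd2
  obtain ⟨n, mn, fn, d3, b0, b1⟩ := exists_n A
  have a1 := hc.2.2.1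
  have a2 := hc.2.2.2.1
  have i2 : i ≠ n := fun h => n_ne (c := 1) hg (by omega) d3 (by rw [one_mul]; exact h.symm)
  -- `s = p / 2`
  have y : 2 * s = A.p := by
    obtain ⟨u, hu⟩ := hc.2.2.2.2.2
    have h3 : 2 * s = (A.e - 2 * u) * A.p := by linear_combination A.e * hg - 2 * hu
    have h1 : 0 < A.e - 2 * u := by
      by_contra hh
      have : A.e - 2 * u ≤ 0 := by omega
      nlinarith
    have h2 : A.e - 2 * u < 2 := by
      by_contra hh
      have : 2 ≤ A.e - 2 * u := by omega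
      nlinarith
    have h4 : A.e - 2 * u = 1 := by omega
    rw [h4, one_mul] at h3
    exact h3
  obtain ⟨c, hcc, r2, r3⟩ : ∃ c : ℤ, (c = 0 ∨ c = 1) ∧ A.md = 2 * m + c ∧
      A.fd = 2 * f - c * A.q := by
    have h3 : A.q * (A.md - 2 * m) = 2 * f - A.fd := by linear_combination -hx
    have h1 : -1 < A.md - 2 * m := by
      by_contra hh
      have : A.md - 2 * m ≤ -1 := by omega
      nlinarith
    have h2 : A.md - 2 * m < 2 := by
      by_contra hh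
      have : 2 ≤ A.md - 2 * m := by omega
      nlinarith
    exact ⟨A.md - 2 * m, by omega, by ring, by linear_combination h3⟩
  rcases h with hr | ⟨hr1, hr2, hr3⟩ <;> rcases hcc with rfl | rfl
  · exact caseD0 F hr hc d3 hm r2 b0 b1 r3 y i2
  · exact caseD1 F hr hc d3 hm r2 b0 b1 r3 y i2
  · exact caseE0 F hr1 hr2 hr3 hc d3 hm r2 b0 b1 r3 y i2
  · exact caseE1 F hr1 hr2 hr3 hc d3 hm r2 b0 b1 r3 y i2

end Pool.Agent.H23.FF

namespace Pool.Agent.H81.AP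

open Pool.Agent.H98.Flat (Ap InA)
open Pool.Agent.H98.Flat.Ap
open Pool.Agent.H23.FF

variable {A : Ap}

/-- the case `1 < gcd (T, p) < p` -/
theorem not_cop_false (F : A.Fl) {D T : ℤ} (hD : (A.q : ℤ) * A.md + A.fd = A.p * D) (D0 : 0 < D)
    (ha : A.a = D + A.q * T) (hT : ¬ (A.p : ℤ) ∣ T) (hcop : ¬ IsCoprime (A.p : ℤ) T)
    (h : (A.p : ℤ) < 2 * A.w + A.h ∨ (A.w = A.h ∧ 3 * (A.w : ℤ) ≤ A.p ∧ (A.p : ℤ) < 4 * A.w)) :
    False := by
  have hp := A.p_pos'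
  have hd1 : (Int.gcd A.p T : ℤ) ∣ A.p := Int.gcd_dvd_left _ _
  have hd2 : (Int.gcd A.p T : ℤ) ∣ T := Int.gcd_dvd_right _ _
  have hn : (Int.gcd A.p T : ℤ) ≠ 1 := by
    intro h1
    exact hcop (Int.isCoprime_iff_gcd_eq_one.2 (by exact_mod_cast h1))
  have h0 : (0 : ℤ) ≤ (Int.gcd A.p T : ℤ) := by positivity
  set g : ℤ := (Int.gcd A.p T : ℤ) with hgdef
  obtain ⟨i, hi⟩ := hd1
  obtain ⟨T', hT'⟩ := hd2
  have g0 : g ≠ 0 := by
    intro hz
    rw [hz, zero_mul] at hi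
    omega
  have g1 : 1 < g := by omega
  have i0 : 0 < i := by
    by_contra hh
    have : i ≤ 0 := by omega
    nlinarith
  have i1 : i ≠ 1 := by
    rintro rfl
    rw [mul_one] at hi
    exact hT ⟨T', by rw [hi]; exact hT'⟩
  obtain ⟨m, f, s, hc, hm, hx, s0, s1⟩ := exists_i0 hD D0 ha hi.symm hT' i0 g1
  rcases h with hr | ⟨hr1, hr2, hr3⟩
  · rcases lt_or_ge g 4 with h4 | h4
    · have : g = 2 ∨ g = 3 := by omega
      rcases this with h5 | h5
      · rw [h5] at hi hx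
        exact falseD F (Or.inl hr) hi.symm hc hm hx s0 s1
      · rw [h5] at hi hx
        exact falseC F hr hi.symm hc hm hx s0 s1
    · exact falseA F hr hi.symm h4 hc hm hx s0 s1
  · rcases lt_or_ge g 3 with h4 | h4
    · have h5 : g = 2 := by omega
      rw [h5] at hi hx
      exact falseD F (Or.inr ⟨hr1, hr2, hr3⟩) hi.symm hc hm hx s0 s1
    · exact falseB F hr1 hr2 hr3 hi.symm h4 (by omega) hc hm hx s0 s1

end Pool.Agent.H81.AP
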